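import Pool.Agent.Helper61.QE.St5

/-!
# Project QD, PART E, SQ1: one member of the sequence
-/

set_option autoImplicit false

open MeasureTheory Set Filter Topology Complex
open scoped ContDiff ComplexConjugate ENNReal

namespace Pool.Agent.Helper93.QE

open Pool.Agent.Helper68.QC Pool.Agent.Helper61.QE

private lemma sol_mono {μ μ' : ℂ → ℂ} {U V : Set ℂ} {f : ℂ → ℂ} (hUV : V ⊆ U)
    (hV : MeasurableSet V) (h : Sol μ U f) (he : ∀ z ∈ V, μ' z = μ z) : Sol μ' V f := by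
  obtain ⟨a, b, hw, hb⟩ := h
  refine ⟨a, b, ⟨hw.cont.mono hUV, fun K hK hc => hw.l2a K (hK.trans hUV) hc,
    fun K hK hc => hw.l2b K (hK.trans hUV) hc,
    fun φ hφ => hw.dz φ ⟨hφ.smooth, hφ.cpt, hφ.sub.trans hUV⟩,
    fun φ hφ => hw.dzb φ ⟨hφ.smooth, hφ.cpt, hφ.sub.trans hUV⟩⟩, ?_⟩
  have h1 := ae_restrict_of_ae_restrict_of_subset hUV hb
  filter_upwards [h1, ae_restrict_mem hV] with z hz hzV
  rw [hz, he z hzV]

/-- diagonal matrix -/
private noncomputable def dg (m : ℂ) (hm : m ≠ 0) : SL :=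
  ⟨!![m, 0; 0, m⁻¹], by rw [Matrix.det_fin_two_of, mul_inv_cancel₀ hm]; ring⟩

private lemma dg_inv (m : ℂ) (hm : m ≠ 0) : (dg m hm)⁻¹ = dg m⁻¹ (inv_ne_zero hm) := by
  apply inv_eq_of_mul_eq_one_left
  ext i j
  rw [Matrix.SpecialLinearGroup.coe_mul]
  fin_cases i <;> fin_cases j <;> simp [dg, Matrix.mul_apply, Fin.sum_univ_two, hm]

private lemma dg_conj (m : ℂ) (hm : m ≠ 0) (B : SL) :
    ((dg m hm)⁻¹ * B * dg m hm) 0 0 = B 0 0 ∧
    ((dg m hm)⁻¹ * B * dg m hm) 0 1 = (m ^ 2)⁻¹ * B 0 1 ∧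
    ((dg m hm)⁻¹ * B * dg m hm) 1 0 = m ^ 2 * B 1 0 ∧
    ((dg m hm)⁻¹ * B * dg m hm) 1 1 = B 1 1 := by
  rw [dg_inv]
  refine ⟨?_, ?_, ?_, ?_⟩
  all_goals
    rw [Matrix.SpecialLinearGroup.coe_mul, Matrix.SpecialLinearGroup.coe_mul]
    simp only [Matrix.mul_apply, Fin.sum_univ_two]
    simp [dg]
    try field_simp

private lemma intw_dg (m : ℂ) (hm : m ≠ 0) (B : SL) :
    Intw B ((dg m hm)⁻¹ * B * dg m hm) (fun y => (m ^ 2)⁻¹ * y) := by
  obtain ⟨h1, h2, h3, h4⟩ := dg_conj m hm B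
  have hm2 : m ^ 2 ≠ 0 := pow_ne_zero 2 hm
  have hden : ∀ z, den ((dg m hm)⁻¹ * B * dg m hm) ((m ^ 2)⁻¹ * z) = den B z := by
    intro z
    unfold den
    rw [h3, h4]
    field_simp
  refine ⟨fun z => ?_, fun z _ => ?_, ?_, fun hc => ?_⟩
  · rw [hden]
  · unfold mob
    rw [hden, h1, h2]
    ring
  · rw [h3]
    constructor
    · intro h
      rw [h, mul_zero]
    · intro h
      rcases mul_eq_zero.1 h with h5 | h5
      · exact absurd h5 hm2
      · exact h5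
  · rw [h1, h3]
    show (m ^ 2)⁻¹ * (B 0 0 / B 1 0) = B 0 0 / (m ^ 2 * B 1 0)
    field_simp

private lemma conjh {Γ : Type} [Group Γ] (ρ : Γ →* SL) (l : ℂ) (hl : l ≠ 0) :
    ∃ R : Γ →* SL, ∀ γ, Intw (ρ γ) (R γ) (fun y => l⁻¹ * y) := by
  obtain ⟨m, hm⟩ := IsAlgClosed.exists_pow_nat_eq l (n := 2) (by norm_num)
  have hm0 : m ≠ 0 := by
    rintro rfl
    apply hl
    rw [← hm]
    norm_num
  refine ⟨(MulAut.conj (dg m hm0)⁻¹).toMonoidHom.comp ρ, fun γ => ?_⟩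
  have h1 := intw_dg m hm0 (ρ γ)
  rw [hm] at h1
  have h2 : ((MulAut.conj (dg m hm0)⁻¹).toMonoidHom.comp ρ) γ = (dg m hm0)⁻¹ * ρ γ * dg m hm0 := by
    show (MulAut.conj (dg m hm0)⁻¹) (ρ γ) = _
    rw [MulAut.conj_apply, inv_inv]
  rw [h2]
  exact h1

private lemma deriv_mul (l z : ℂ) : deriv (fun z : ℂ => l * z) z = l := by
  simpa using ((hasDerivAt_id z).const_mul l).deriv

private lemma scale (hCVH : StCVH) (l : ℂ) (hl : l ≠ 0) (A B : Set ℂ) (hA : MeasurableSet A)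
    (hB : MeasurableSet B) (k k' : ℂ → ℂ → ℝ≥0∞)
    (h : ∀ x y, k x y = k' (l * x) (l * y) * ENNReal.ofReal (‖l‖ ^ 2) * ENNReal.ofReal (‖l‖ ^ 2)) :
    ∫⁻ a in A, ∫⁻ b in B, k a b =
      ∫⁻ a in (fun x => l * x) '' A, ∫⁻ b in (fun x => l * x) '' B, k' a b := by
  have hd : DifferentiableOn ℂ (fun x : ℂ => l * x) univ :=
    (differentiable_id.const_mul l).differentiableOn
  have hi : ∀ S : Set ℂ, InjOn (fun x : ℂ => l * x) S := fun S x _ y _ hxy => mul_left_cancel₀ hl hxy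
  rw [hCVH univ A (fun x => l * x) isOpen_univ hd (subset_univ _) hA (hi A)]
  refine lintegral_congr fun x => ?_
  rw [hCVH univ B (fun x => l * x) isOpen_univ hd (subset_univ _) hB (hi B), deriv_mul,
    ← lintegral_mul_const' _ _ ENNReal.ofReal_ne_top]
  refine lintegral_congr fun y => ?_
  rw [deriv_mul, h x y]

private lemma dKern_scale (Φ : ℂ → ℂ) (l c : ℂ) (hl : l ≠ 0) (hc : c ≠ 0) (x y : ℂ) :
    dKern (fun x => c⁻¹ * Φ (l * x)) x y = l ^ 2 * dKern Φ (l * x) (l * y) := by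
  have hd : ∀ x, deriv (fun x => c⁻¹ * Φ (l * x)) x = c⁻¹ * (l * deriv Φ (l * x)) := by
    intro x
    rw [deriv_const_mul_field, deriv_comp_mul_left]
    rfl
  unfold dKern
  rw [hd, hd]
  have e1 : (c⁻¹ * Φ (l * x) - c⁻¹ * Φ (l * y)) ^ 2 = (c⁻¹) ^ 2 * (Φ (l * x) - Φ (l * y)) ^ 2 := by
    ring
  have e2 : (c⁻¹ * (l * deriv Φ (l * x))) * (c⁻¹ * (l * deriv Φ (l * y))) =
      (c⁻¹) ^ 2 * (l ^ 2 * (deriv Φ (l * x) * deriv Φ (l * y))) := by ring
  have e3 : (l * x - l * y) ^ 2 = l ^ 2 * (x - y) ^ 2 := by ring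
  have hc2 : (c⁻¹) ^ 2 ≠ 0 := pow_ne_zero 2 (inv_ne_zero hc)
  have hl2 : l ^ 2 ≠ 0 := pow_ne_zero 2 hl
  rw [e1, e2, e3, mul_div_mul_left _ _ hc2, mul_sub, mul_div_assoc, mul_div_assoc]
  congr 1
  rw [one_div, one_div, mul_inv, ← mul_assoc, mul_inv_cancel₀ hl2, one_mul]

/-- **SQ1** -/
theorem pSQ1 (hEX : Pool.Agent.Helper68.QC.StEX) (hUNI : Pool.Agent.Helper68.QC.StUNI)
    (hCNF : Pool.Agent.Helper68.QC.StCNF) (hFAC : Pool.Agent.Helper68.QC.StFAC)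
    (hCMP : Pool.Agent.Helper68.QC.StCMP) (hPRE : Pool.Agent.Helper68.QC.StPRE)
    (hPOS : Pool.Agent.Helper68.QC.StPOS) (hNUL : Pool.Agent.Helper68.QC.StNUL)
    (_hSYC : Pool.Agent.Helper68.QC.StSYC) (_hSUB : Pool.Agent.Helper61.QE.StSUB)
    (hINT : Pool.Agent.Helper61.QE.StINT) (hEDD : Pool.Agent.Helper61.QE.StEDD)
    (hCOE : Pool.Agent.Helper61.QE.StCOE) (hCVH : Pool.Agent.Helper61.QE.StCVH)
    (_hTRF : Pool.Agent.Helper61.QE.StTRF) (hRPH : Pool.Agent.Helper61.QE.StRPH) :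
    Pool.Agent.Helper61.QE.StSQ1 := by
  intro Γ _ s F h κ k hfu hfd hab hk hkap t0 ht0
  have ht : ‖t0‖ < 1 := by
    have := ht0
    rwa [mem_ball_zero_iff] at this
  have hk0 : 0 ≤ k := (norm_nonneg _).trans (hkap.bel.le 0)
  obtain ⟨c1, c2, -⟩ := hCOE Γ s h κ k hfu.su ⟨hab.hol, hab.eqv⟩ hk0 hkap
  set K : ℝ := max k ‖t0‖ with hK
  have hK1 : K < 1 := max_lt hk ht
  have belκ : Bel K κ := ⟨hkap.bel.meas, fun z => (hkap.bel.le z).trans (le_max_left _ _)⟩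
  have belμ : Bel K (muT κ h t0) := (c1 t0).1
  have nκ := hEX K hK1 κ belκ
  have nμ := hEX K hK1 (muT κ h t0) belμ
  -- the maximum
  obtain ⟨q, hq, hmax⟩ := (isCompact_closedBall (0 : ℂ) 1).exists_isMaxOn
    (f := fun z => ‖nq κ z‖) ⟨0, by simp⟩ ((nq κ).continuous.norm.continuousOn)
  have hmax' : ∀ z : ℂ, ‖z‖ ≤ 1 → ‖nq κ z‖ ≤ ‖nq κ q‖ := fun z hz =>
    hmax (by rw [mem_closedBall_zero_iff]; exact hz)
  obtain ⟨l, hl⟩ : ∃ l : ℂ, l = nq κ q := ⟨_, rfl⟩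
  have hl1 : 1 ≤ ‖l‖ := by
    have h1 := hmax' 1 (by simp)
    rw [nκ.one, norm_one] at h1
    rw [hl]
    exact h1
  have hl0 : l ≠ 0 := by
    rintro rfl
    rw [norm_zero] at hl1
    linarith
  set G : ℂ ≃ₜ ℂ := (nq κ).trans (Homeomorph.mulLeft₀ l⁻¹ (inv_ne_zero hl0)) with hG
  have hGz : ∀ z, G z = l⁻¹ * nq κ z := fun z => rfl
  -- composition
  have hin : ∀ z : ℂ, ‖z‖ ≤ 1 → muT κ h t0 z = κ z := by
    intro z hz
    unfold muT nuT
    rw [if_neg (by linarith), mul_zero, add_zero]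
  have hout : ∀ z : ℂ, 1 < ‖z‖ → κ z = 0 := fun z hz => hkap.out z hz.le
  obtain ⟨ν, belν, hν, haeν⟩ := hCMP K hK1 (muT κ h t0) κ belμ belκ ‖t0‖ ht (by
    intro z
    by_cases hz : ‖z‖ ≤ 1
    · rw [hin z hz, sub_self, norm_zero]
      positivity
    · push Not at hz
      rw [hout z hz, map_zero, zero_mul, sub_zero, sub_zero, norm_one, mul_one,
        ← (c2 t0).2.2.2.1 z hz]
      exact (c2 t0).1.le z)
  have nν := hEX ‖t0‖ ht ν belν
  -- `ν` vanishes on the image of the disc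
  have hν0 : volume {y | y ∈ nq κ '' D ∧ ν y ≠ 0} = 0 := by
    have hE : volume {z | ¬ ‖ν (nq κ z)‖ * ‖1 - conj (κ z) * muT κ h t0 z‖ =
        ‖muT κ h t0 z - κ z‖} = 0 := haeν
    have hE2 := (hNUL K hK1 κ belκ _).2 hE
    refine measure_mono_null ?_ hE2
    rintro _ ⟨⟨z, hz, rfl⟩, hne⟩
    refine ⟨z, ?_, rfl⟩
    intro heq
    have hz1 : ‖z‖ < 1 := by rwa [mem_ball_zero_iff] at hz
    rw [hin z hz1.le, sub_self, norm_zero] at heq
    rcases mul_eq_zero.1 heq with h1 | h1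
    · exact hne (norm_eq_zero.1 h1)
    · have h2 : 1 - conj (κ z) * κ z = 0 := norm_eq_zero.1 h1
      have h3 : ‖κ z‖ < 1 := lt_of_le_of_lt (hkap.bel.le z) hk
      have h4 : (1 : ℂ) = conj (κ z) * κ z := by linear_combination h2
      have h5 : (1 : ℝ) = ‖κ z‖ * ‖κ z‖ := by
        have := congrArg norm h4
        rwa [norm_one, norm_mul, RCLike.norm_conj] at this
      nlinarith [norm_nonneg (κ z)]
  -- the constant and the coefficient
  obtain ⟨c, hc⟩ : ∃ c : ℂ, c = nq ν l := ⟨_, rfl⟩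
  have hc0 : c ≠ 0 := by
    rw [hc]
    intro h1
    have h2 : nq ν l = nq ν 0 := by rw [h1, nν.zero]
    exact hl0 ((nq ν).injective h2)
  set N : ℂ → ℂ := fun z => ν (l * z) * (conj l / l) with hN
  have hll : ‖conj l / l‖ = 1 := by
    rw [norm_div, RCLike.norm_conj, div_self (norm_ne_zero_iff.2 hl0)]
  have belN : Bel ‖t0‖ N := by
    refine ⟨?_, fun z => ?_⟩
    · exact (belν.meas.comp (measurable_const_mul l)).mul_const _
    · rw [hN]
      show ‖ν (l * z) * (conj l / l)‖ ≤ ‖t0‖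
      rw [norm_mul, hll, mul_one]
      exact belν.le _
  have hNq : ∀ z, nq N z = c⁻¹ * nq ν (l * z) := by
    set w : ℂ ≃ₜ ℂ := (Homeomorph.mulLeft₀ l hl0).trans ((nq ν).trans
      (Homeomorph.mulLeft₀ c⁻¹ (inv_ne_zero hc0))) with hw
    have hwz : ∀ z, w z = c⁻¹ * nq ν (l * z) := fun z => rfl
    have hsol : Sol N univ w := by
      have h1 := hPRE ν univ univ (nq ν) (fun z => l * z) isOpen_univ isOpen_univ
        (differentiable_id.const_mul l).differentiableOn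
        (fun x _ y _ hxy => mul_left_cancel₀ hl0 hxy) (fun x _ => mem_univ _)
        (fun z _ => by rw [deriv_mul]; exact hl0) nν.sol
      have h2 := hPOS _ univ univ _ (fun y => c⁻¹ * y) isOpen_univ isOpen_univ
        (differentiable_id.const_mul c⁻¹).differentiableOn (fun x _ => mem_univ _) h1
      have e1 : (fun z => ν (l * z) * (conj (deriv (fun z => l * z) z) / deriv (fun z => l * z) z)) =
          N := by
        funext z
        rw [deriv_mul]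
      rw [e1] at h2
      exact h2
    have h3 := hUNI ‖t0‖ ht N belN w (by rw [hwz, mul_zero, nν.zero, mul_zero])
      (by rw [hwz, mul_one, ← hc, inv_mul_cancel₀ hc0]) ∅ Set.finite_empty
      (by rw [compl_empty]; exact hsol)
    intro z
    rw [← h3, hwz]
  have hNG : ∀ z, nq N (G z) = c⁻¹ * nq (muT κ h t0) z := by
    intro z
    rw [hNq, hGz, ← mul_assoc, mul_inv_cancel₀ hl0, one_mul, ← hν]
  have hΦ : (fun y => nq (muT κ h t0) ((nq κ).symm y)) = nq ν := by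
    funext y
    rw [hν, Homeomorph.apply_symm_apply]
  have hNf : (nq N : ℂ → ℂ) = fun x => c⁻¹ * nq ν (l * x) := funext hNq
  -- groups
  obtain ⟨ρ, ρt, hρ, hρt⟩ := hRPH Γ s h κ k hfu hab hk hkap t0 ht0
  obtain ⟨R, hR⟩ := conjh ρ l hl0
  obtain ⟨R', hR'⟩ := conjh ρt c hc0
  -- images
  have himg : ∀ S : Set ℂ, (fun x => l * x) '' (G '' S) = nq κ '' S := by
    intro S
    rw [image_image]
    refine image_congr fun z _ => ?_
    rw [hGz, ← mul_assoc, mul_inv_cancel₀ hl0, one_mul]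
  have hmeas : ∀ S : Set ℂ, MeasurableSet S → MeasurableSet (G '' S) := fun S hS =>
    G.toMeasurableEquiv.measurableEmbedding.measurableSet_image.2 hS
  have hDo : IsOpen Dx := isOpen_lt continuous_const continuous_norm
  have hDm : MeasurableSet D := measurableSet_ball
  refine ⟨G, N, R, R', ⟨?_, ?_, ?_, ?_⟩, ?_, belN, ?_, ?_, ?_, ?_, ?_⟩
  · rw [hGz, nκ.zero, mul_zero]
  · refine ⟨q, by rwa [mem_closedBall_zero_iff] at hq, ?_⟩
    rw [hGz, ← hl, inv_mul_cancel₀ hl0]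
  · intro z hz
    rw [hGz, norm_mul, norm_inv, inv_mul_le_iff₀ (by linarith), mul_one, hl]
    exact hmax' z hz
  · have h1 := hCNF K hK1 κ belκ Dx hDo
      (ae_restrict_of_forall_mem hDo.measurableSet fun z hz => hout z hz)
    exact h1.const_mul l⁻¹
  · intro γ
    exact hINT.1 (s γ) (ρ γ) (R γ) (nq κ) (fun y => l⁻¹ * y) (hρ γ) (hR γ)
  · rw [ae_restrict_iff' (hmeas D hDm)]
    have hdl : Differentiable ℝ (fun y : ℂ => l⁻¹ * y) := differentiable_id.const_mul l⁻¹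
    have h1 : volume ((fun y : ℂ => l⁻¹ * y) '' {y | y ∈ nq κ '' D ∧ ν y ≠ 0}) = 0 :=
      addHaar_image_eq_zero_of_differentiableOn_of_addHaar_eq_zero _ hdl.differentiableOn hν0
    refine measure_mono_null ?_ h1
    intro z hz
    have hz' : ¬ (z ∈ G '' D → N z = 0) := hz
    push Not at hz'
    obtain ⟨h2, h3⟩ := hz'
    refine ⟨l * z, ⟨?_, ?_⟩, ?_⟩
    · rw [← himg D]
      exact mem_image_of_mem _ h2
    · intro h4
      apply h3
      show ν (l * z) * (conj l / l) = 0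
      rw [h4, zero_mul]
    · show l⁻¹ * (l * z) = z
      rw [← mul_assoc, inv_mul_cancel₀ hl0, one_mul]
  · intro γ
    have h1 := hINT.1 (s γ) (ρt γ) (R' γ) (nq (muT κ h t0)) (fun y => c⁻¹ * y) (hρt γ) (hR' γ)
    have h2 : (fun z => nq N (G z)) = fun z => c⁻¹ * nq (muT κ h t0) z := funext hNG
    rw [h2]
    exact h1
  · have h2 : (fun w => nq N (G ((nq (syX h t0)).symm w))) =
        fun w => c⁻¹ * nq (muT κ h t0) ((nq (syX h t0)).symm w) := funext fun w => hNG _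
    rw [h2]
    have h3 : Sol (syX h t0) Dx (nq (muT κ h t0)) :=
      sol_mono (subset_univ _) hDo.measurableSet nμ.sol fun z hz => (c2 t0).2.2.2.1 z hz
    have h4 := hFAC ‖t0‖ ht (syX h t0) (c2 t0).1 Dx _ hDo h3
    rw [(hEDD ‖t0‖ ht (syX h t0) (c2 t0).1 (c2 t0).2.2.1).2.1] at h4
    exact h4.const_mul c⁻¹
  · rw [hΦ, ← himg F, ← himg D]
    refine scale hCVH l hl0 _ _ (hmeas F hfd.meas) (hmeas D hDm) _ _ fun x y => ?_
    rw [hNf, dKern_scale _ l c hl0 hc0, norm_mul, norm_pow, mul_pow, ← ENNReal.ofReal_mul (by positivity),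
      ← ENNReal.ofReal_mul (by positivity)]
    congr 1
    ring
  · unfold En
    rw [← himg F, ← himg Dx]
    refine scale hCVH l hl0 _ _ (hmeas F hfd.meas) (hmeas Dx hDo.measurableSet) _
      (fun a ξ => ENNReal.ofReal (‖ξ - a‖⁻¹ ^ 4)) fun x y => ?_
    rw [← mul_sub, norm_mul, mul_inv, mul_pow, ← ENNReal.ofReal_mul (by positivity),
      ← ENNReal.ofReal_mul (by positivity)]
    congr 1
    have hp : ‖l‖ ≠ 0 := norm_ne_zero_iff.2 hl0
    field_simp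

end Pool.Agent.Helper93.QE
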